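import Pool.Agent.Lib.MP_f762b7_al.Up

/-! The absolute integral closure of a domain essentially of finite type over a field is solid. -/

namespace Pool.Agent.Results.MP_f762b7_al.FiniteType

universe u v w

/-- Let `R` be a domain essentially of finite type over a field `k` and let `L` be a field
containing `R`, for instance an algebraic closure of the fraction field. There is an `R`-linear map
from the integral closure of `R` in `L` to `R` that does not vanish at `1`. -/
theorem result (k : Type u) [Field k] (R : Type v) [CommRing R] [IsDomain R] [Algebra k R]
    [Algebra.EssFiniteType k R] (L : Type w) [Field L] [Algebra R L]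
    (hinj : Function.Injective (algebraMap R L)) :
    ∃ f : ↥(integralClosure R L) →ₗ[R] R, f 1 ≠ 0 :=
  Pool.Agent.Lib.MP_f762b7_al.Gen.solid_ess k hinj

end Pool.Agent.Results.MP_f762b7_al.FiniteType
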