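import Pool.Agent.Lib.MP_f762b7_al.Retract

/-! The inclusion of `k[x]` in its integral closure in any field containing it splits. -/

set_option autoImplicit false

namespace Pool.Agent.Results.MP_f762b7_al.Splits

open Polynomial

universe u v

/-- Let `k` be a field and `L` a field containing `k[x]`, for instance an algebraic closure of
`k(x)`. There is a `k[x]`-linear map from the integral closure of `k[x]` in `L` to `k[x]` that
sends `1` to `1`. -/
theorem result (k : Type u) [Field k] (L : Type v) [Field L] [Algebra (Polynomial k) L]
    (hinj : Function.Injective (algebraMap (Polynomial k) L)) :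
    ∃ f : ↥(integralClosure (Polynomial k) L) →ₗ[Polynomial k] Polynomial k, f 1 = 1 := by
  letI : Algebra k L := ((algebraMap k[X] L).comp C).toAlgebra
  haveI : IsScalarTower k k[X] L := IsScalarTower.of_algebraMap_eq fun _ => rfl
  apply Pool.Agent.Lib.MP_f762b7_al.exists_retraction
  rw [transcendental_iff_injective]
  intro q r hqr
  apply hinj
  rw [Pool.Agent.Lib.MP_f762b7_al.algebraMap_eq_aeval q,
    Pool.Agent.Lib.MP_f762b7_al.algebraMap_eq_aeval r]
  exact hqr

end Pool.Agent.Results.MP_f762b7_al.Splits
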